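import Pool.Agent.H816_Nef.NMain3
import Pool.Agent.H816_Nef.J9

/-!
# Nefness of the cotangent bundle of compact Kähler manifolds covered by `D × ℂ^k`

Let `X` be a compact Kähler manifold with a covering by `D × E₂`, where `D` is a bounded open subset
of a finite dimensional complex vector space `E₁` and `E₂` is a finite dimensional complex vector
space. If `E₂` is one dimensional, or if the covering is fibrewise affine, then the cotangent bundle
of `X` is nef. (If `D` is contractible then `X` is aspherical.)
-/

set_option autoImplicit false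

open Set Filter Topology Metric
open scoped ContDiff Manifold

namespace Pool.Agent.Results.MP_6a1d6a_ag.BoundedTimesAffine

open Pool.Agent.H816_Nef Pool.Agent

/-- A compact Kähler manifold which is covered by `D × E₂`, where `D` is a bounded open subset of a
finite dimensional vector space and `E₂` is a finite dimensional vector space, has nef cotangent
bundle if `E₂` is one dimensional or if the covering is fibrewise affine. -/
theorem result {E₁ E₂ : Type} [NormedAddCommGroup E₁] [NormedSpace ℂ E₁] [FiniteDimensional ℂ E₁]
    [NormedAddCommGroup E₂] [NormedSpace ℂ E₂] [FiniteDimensional ℂ E₂]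
    {X : Type} [TopologicalSpace X] [CompactSpace X] [ChartedSpace (E₁ × E₂) X]
    [IsManifold 𝓘(ℂ, E₁ × E₂) ω X] (κ : PNB.ClosedForm (E₁ × E₂) X) (hκ : κ.IsKahler)
    (D : TopologicalSpace.Opens E₁) (hD : Bornology.IsBounded (D : Set E₁))
    (p : cylinder D E₂ → X) (hp : IsCoveringMap p)
    (hpl : IsLocalDiffeomorph 𝓘(ℂ, E₁ × E₂) 𝓘(ℂ, E₁ × E₂) ω p) (hps : Function.Surjective p)
    (hE : Module.finrank ℂ E₂ = 1 ∨ FibrewiseAffine p) :
    CotangentNef (E₁ × E₂) X :=
  mainN κ hκ hD hp hpl hps
    (hE.elim (fun h => fibrewiseAffine_of_finrank_one hD hp hpl h) id)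

end Pool.Agent.Results.MP_6a1d6a_ag.BoundedTimesAffine
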