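import Pool.Agent.H816_Nef.MainM2

/-!
# Nefness of the cotangent bundle from Finsler functions of subexponential growth on coverings

Let `π : X → S` be a holomorphic map of complex manifolds, where the cotangent bundle of `S` is nef
(for instance `S` is a point). If every nonzero tangent vector `v` of `X` with `dπ (v) = 0` is
detected, on some covering of `X` which may depend on `v`, by log-plurisubharmonic Finsler functions
of arbitrarily small exponential growth, then the cotangent bundle of `X` is nef.

Examples of such Finsler functions on a covering `Y` are `|dh|` for a holomorphic function `h`, and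
`|σ| ^ (1 / m)` for a holomorphic symmetric `m`-differential `σ` on `Y`.
-/

set_option autoImplicit false

open Set Filter Topology Metric
open scoped ContDiff Manifold

namespace Pool.Agent.Results.MP_6a1d6a_ag.SubexponentialCriterion

open Pool.Agent.H816_Nef

/-- **Relative subexponential criterion.** If `π : X → S` is holomorphic, the cotangent bundle of
`S` is nef and all nonzero vertical tangent vectors of `X` are detected by log-plurisubharmonic
Finsler functions of subexponential growth on coverings of `X`, then the cotangent bundle of `X` is
nef. -/
theorem result {E E' : Type} [NormedAddCommGroup E] [NormedSpace ℂ E] [NormedAddCommGroup E']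
    [NormedSpace ℂ E'] [CompleteSpace E']
    {X : Type} [TopologicalSpace X] [ChartedSpace E X] [IsManifold 𝓘(ℂ, E) ω X]
    {S : Type} [TopologicalSpace S] [ChartedSpace E' S] [IsManifold 𝓘(ℂ, E') ω S]
    (π : X → S) (hπ : ContMDiff 𝓘(ℂ, E) 𝓘(ℂ, E') ω π) (hS : CotangentNef E' S)
    (hdet : ∀ v : TangentBundle 𝓘(ℂ, E) X, IsVertical E E' π v → v.snd ≠ 0 →
      SubexpDetected E E' π v) :
    CotangentNef E X :=
  criterion π hπ hS hdet

end Pool.Agent.Results.MP_6a1d6a_ag.SubexponentialCriterion
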